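import Pool.Agent.W982.TA.Stm

/-!
# G10: a point that is on no edge is seen from a point of some edge
-/

set_option autoImplicit false

namespace Pool.Agent.W982.TA

namespace G10

/-- real cross product -/
def cr (x y z : ℝ × ℝ) : ℝ := (y.1 - x.1) * (z.2 - x.2) - (y.2 - x.2) * (z.1 - x.1)

theorem cr_emb (a b c : Pt) : cr (emb a) (emb b) (emb c) = (dt a b c : ℝ) := by
  simp only [cr, emb, dt]
  push_cast
  ring

theorem emb_inj {a b : Pt} (h : emb a = emb b) : a = b := by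
  simp only [emb, Prod.mk.injEq, Int.cast_inj] at h
  exact Prod.ext h.1 h.2

theorem mem_os (x y w : ℝ × ℝ) : w ∈ openSegment ℝ x y ↔
    ∃ θ : ℝ, 0 < θ ∧ θ < 1 ∧ w.1 = x.1 + θ * (y.1 - x.1) ∧ w.2 = x.2 + θ * (y.2 - x.2) := by
  rw [openSegment_eq_image']
  constructor
  · rintro ⟨θ, ⟨h0, h1⟩, rfl⟩
    exact ⟨θ, h0, h1, by simp, by simp⟩
  · rintro ⟨θ, h0, h1, e1, e2⟩
    refine ⟨θ, ⟨h0, h1⟩, ?_⟩
    ext
    · simp [e1]
    · simp [e2]

/-- the point with parameter `s` on the line from `z` to `Q` -/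
def pnt (z Q : ℝ × ℝ) (s : ℝ) : ℝ × ℝ := (z.1 + s * (Q.1 - z.1), z.2 + s * (Q.2 - z.2))

theorem mem_os' (x y w : ℝ × ℝ) : w ∈ openSegment ℝ x y ↔
    ∃ θ : ℝ, 0 < θ ∧ θ < 1 ∧ w = pnt x y θ := by
  rw [mem_os]
  constructor
  · rintro ⟨θ, h0, h1, e1, e2⟩
    exact ⟨θ, h0, h1, Prod.ext e1 e2⟩
  · rintro ⟨θ, h0, h1, rfl⟩
    exact ⟨θ, h0, h1, rfl, rfl⟩

/-- a collinear point -/
theorem on_line {z Q w : ℝ × ℝ} (hne : z ≠ Q) (h : cr z Q w = 0) : ∃ s : ℝ, w = pnt z Q s := by
  simp only [cr] at h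
  by_cases h1 : Q.1 - z.1 = 0
  · have h2 : Q.2 - z.2 ≠ 0 := by
      intro h2
      apply hne
      exact Prod.ext (by linarith) (by linarith)
    refine ⟨(w.2 - z.2) / (Q.2 - z.2), ?_⟩
    rw [h1] at h
    have h3 : w.1 - z.1 = 0 := by
      have : (Q.2 - z.2) * (w.1 - z.1) = 0 := by linarith
      rcases mul_eq_zero.mp this with h4 | h4
      · exact absurd h4 h2
      · exact h4
    refine Prod.ext ?_ ?_
    · simp only [pnt]
      rw [h1]
      linarith
    · simp only [pnt]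
      rw [div_mul_cancel₀ _ h2]
      ring
  · refine ⟨(w.1 - z.1) / (Q.1 - z.1), ?_⟩
    refine Prod.ext ?_ ?_
    · simp only [pnt]
      rw [div_mul_cancel₀ _ h1]
      ring
    · simp only [pnt]
      field_simp
      linarith

/-- Step 1: a good starting point -/
theorem step1 (S : Finset Pt) (q : Pt) (hq : q ∉ S) (a b : Pt) (hd : dt a b q ≠ 0) :
    ∃ z ∈ oseg a b, ∀ r ∈ S, emb r ∉ openSegment ℝ z (emb q) := by
  classical
  set A := emb a
  set B := emb b
  set Q := emb q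
  have hd' : cr A B Q ≠ 0 := by
    rw [cr_emb]
    exact_mod_cast hd
  have hfin : (⋃ r ∈ S, {t : ℝ | emb r ∈ openSegment ℝ (pnt A B t) Q}).Finite := by
    refine Set.Finite.biUnion S.finite_toSet ?_
    intro r hr
    apply Set.Subsingleton.finite
    intro t ht t' ht'
    simp only [Set.mem_setOf_eq] at ht ht'
    have hrq : emb r ≠ Q := by
      intro h
      exact hq (emb_inj h ▸ hr)
    obtain ⟨s, hs0, hs1, e1, e2⟩ := (mem_os _ _ _).mp ht
    obtain ⟨s', hs0', hs1', e1', e2'⟩ := (mem_os _ _ _).mp ht'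
    by_contra hne
    simp only [pnt] at e1 e2 e1' e2'
    have key : ∀ (t s x y : ℝ), x = A.1 + t * (B.1 - A.1) + s * (Q.1 - (A.1 + t * (B.1 - A.1))) →
        y = A.2 + t * (B.2 - A.2) + s * (Q.2 - (A.2 + t * (B.2 - A.2))) →
        (x - Q.1) * (A.2 - Q.2) - (y - Q.2) * (A.1 - Q.1) +
          t * ((x - Q.1) * (B.2 - A.2) - (y - Q.2) * (B.1 - A.1)) = 0 := by
      intro t s x y hx hy
      subst hx
      subst hy
      ring
    have k1 := key t s _ _ e1 e2
    have k2 := key t' s' _ _ e1' e2'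
    have k3 : (t - t') * (((emb r).1 - Q.1) * (B.2 - A.2) - ((emb r).2 - Q.2) * (B.1 - A.1)) = 0 := by
      linarith
    have k4 : ((emb r).1 - Q.1) * (B.2 - A.2) - ((emb r).2 - Q.2) * (B.1 - A.1) = 0 := by
      rcases mul_eq_zero.mp k3 with h | h
      · exact absurd (sub_eq_zero.mp h) hne
      · exact h
    rw [k4, mul_zero, add_zero] at k1
    -- now `R - Q` is parallel to `A - Q` and to `B - A`
    have k5 : ((emb r).1 - Q.1) * cr A B Q = 0 := by
      simp only [cr]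
      have : ((emb r).1 - Q.1) * ((B.1 - A.1) * (Q.2 - A.2) - (B.2 - A.2) * (Q.1 - A.1)) =
        - (B.1 - A.1) * (((emb r).1 - Q.1) * (A.2 - Q.2) - ((emb r).2 - Q.2) * (A.1 - Q.1))
        + (A.1 - Q.1) * (((emb r).1 - Q.1) * (B.2 - A.2) - ((emb r).2 - Q.2) * (B.1 - A.1)) := by
        ring
      rw [this, k1, k4]
      ring
    have k6 : ((emb r).2 - Q.2) * cr A B Q = 0 := by
      simp only [cr]
      have : ((emb r).2 - Q.2) * ((B.1 - A.1) * (Q.2 - A.2) - (B.2 - A.2) * (Q.1 - A.1)) =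
        - (B.2 - A.2) * (((emb r).1 - Q.1) * (A.2 - Q.2) - ((emb r).2 - Q.2) * (A.1 - Q.1))
        + (A.2 - Q.2) * (((emb r).1 - Q.1) * (B.2 - A.2) - ((emb r).2 - Q.2) * (B.1 - A.1)) := by
        ring
      rw [this, k1, k4]
      ring
    apply hrq
    refine Prod.ext ?_ ?_
    · rcases mul_eq_zero.mp k5 with h | h
      · linarith
      · exact absurd h hd'
    · rcases mul_eq_zero.mp k6 with h | h
      · linarith
      · exact absurd h hd'
  have hinf : (Set.Ioo (0:ℝ) 1).Infinite := Set.Ioo_infinite one_pos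
  obtain ⟨t, ht, htn⟩ := (hinf.diff hfin).nonempty
  refine ⟨pnt A B t, (mem_os' _ _ _).mpr ⟨t, ht.1, ht.2, rfl⟩, ?_⟩
  intro r hr hmem
  apply htn
  simp only [Set.mem_iUnion, Set.mem_setOf_eq]
  exact ⟨r, hr, hmem⟩

/-- Step 2: an edge on a line through `q` does not meet the open segment -/
theorem step2 (S : Finset Pt) (q : Pt) (hq : q ∉ S) (z : ℝ × ℝ) (hzq : z ≠ emb q)
    (hz : ∀ r ∈ S, emb r ∉ openSegment ℝ z (emb q)) (p r : Pt) (hp : p ∈ S) (hr : r ∈ S)
    (hpr : p ≠ r) (hd : dt p r q = 0) (hqn : emb q ∉ oseg p r) :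
    ∀ s : ℝ, 0 < s → s < 1 → pnt z (emb q) s ∉ oseg p r := by
  intro s hs0 hs1 hmem
  set Q := emb q
  have hd' : cr (emb p) (emb r) Q = 0 := by
    rw [cr_emb, hd]
    simp
  obtain ⟨θ, h0, h1, e1, e2⟩ := (mem_os _ _ _).mp hmem
  simp only [pnt] at e1 e2
  simp only [cr] at hd'
  have hPR : emb p ≠ emb r := fun h => hpr (emb_inj h)
  have hs1' : (1 - s) ≠ 0 := by linarith
  -- `p` on the line
  have hcz : (1 - s) * (((emb r).1 - (emb p).1) * (z.2 - (emb p).2) -
      ((emb r).2 - (emb p).2) * (z.1 - (emb p).1)) = 0 := by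
    have i1 : ((emb r).1 - (emb p).1) * ((z.2 + s * (Q.2 - z.2)) - (emb p).2) -
      ((emb r).2 - (emb p).2) * ((z.1 + s * (Q.1 - z.1)) - (emb p).1) = 0 := by
      rw [e1, e2]
      ring
    linear_combination i1 - s * hd'
  have hcz' : ((emb r).1 - (emb p).1) * (z.2 - (emb p).2) -
      ((emb r).2 - (emb p).2) * (z.1 - (emb p).1) = 0 := by
    rcases mul_eq_zero.mp hcz with h | h
    · exact absurd h hs1'
    · exact h
  obtain ⟨α, hα⟩ := on_line hPR (w := z) (by simpa only [cr] using hcz')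
  obtain ⟨β, hβ⟩ := on_line hPR (w := Q) (by simpa only [cr] using hd')
  have hαβ : α ≠ β := by
    intro h
    apply hzq
    rw [hα, h]
    exact hβ.symm
  -- in coordinates of the line through `p`, `r`: `p ↦ 0`, `r ↦ 1`, `z ↦ α`, `Q ↦ β`
  have hQ0 : β ≠ 0 := by
    intro h
    apply hq
    have : emb q = emb p := by
      show Q = emb p
      rw [hβ, h]
      simp [pnt]
    rw [emb_inj this]
    exact hp
  have hQ1 : β ≠ 1 := by
    intro h
    apply hq
    have : emb q = emb r := by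
      show Q = emb r
      rw [hβ, h]
      simp [pnt]
    rw [emb_inj this]
    exact hr
  have hβn : ¬ (0 < β ∧ β < 1) := by
    rintro ⟨hb0, hb1⟩
    exact hqn ((mem_os' _ _ _).mpr ⟨β, hb0, hb1, hβ⟩)
  -- the meeting point
  have hθ : θ = α + s * (β - α) := by
    have z1 : z.1 = (emb p).1 + α * ((emb r).1 - (emb p).1) := congrArg Prod.fst hα
    have z2 : z.2 = (emb p).2 + α * ((emb r).2 - (emb p).2) := congrArg Prod.snd hα
    have q1 : Q.1 = (emb p).1 + β * ((emb r).1 - (emb p).1) := congrArg Prod.fst hβ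
    have q2 : Q.2 = (emb p).2 + β * ((emb r).2 - (emb p).2) := congrArg Prod.snd hβ
    have f1 : (θ - (α + s * (β - α))) * ((emb r).1 - (emb p).1) = 0 := by
      linear_combination -e1 + (1 - s) * z1 + s * q1
    have f2 : (θ - (α + s * (β - α))) * ((emb r).2 - (emb p).2) = 0 := by
      linear_combination -e2 + (1 - s) * z2 + s * q2
    rcases mul_eq_zero.mp f1 with h | h
    · linarith
    · rcases mul_eq_zero.mp f2 with h' | h'
      · linarith
      · exact absurd (Prod.ext (by linarith) (by linarith)) hPR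
  -- points of `S` in the open segment
  have inS : ∀ (x : Pt) (c : ℝ), x ∈ S → emb x = pnt (emb p) (emb r) c →
      ¬ ∃ u : ℝ, 0 < u ∧ u < 1 ∧ c = α + u * (β - α) := by
    rintro x c hx hxc ⟨u, hu0, hu1, huc⟩
    apply hz x hx
    refine (mem_os' _ _ _).mpr ⟨u, hu0, hu1, ?_⟩
    rw [hxc]
    have z1 : z.1 = (emb p).1 + α * ((emb r).1 - (emb p).1) := congrArg Prod.fst hα
    have z2 : z.2 = (emb p).2 + α * ((emb r).2 - (emb p).2) := congrArg Prod.snd hα
    have q1 : Q.1 = (emb p).1 + β * ((emb r).1 - (emb p).1) := congrArg Prod.fst hβ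
    have q2 : Q.2 = (emb p).2 + β * ((emb r).2 - (emb p).2) := congrArg Prod.snd hβ
    refine Prod.ext ?_ ?_
    · simp only [pnt]
      rw [huc]
      linear_combination -(1 - u) * z1 - u * q1
    · simp only [pnt]
      rw [huc]
      linear_combination -(1 - u) * z2 - u * q2
  have hp0 := inS p 0 hp (by simp [pnt])
  have hr1 := inS r 1 hr (by simp [pnt])
  -- arithmetic of the line
  have hba : β - α ≠ 0 := fun h => hαβ (by linarith)
  by_cases hlt : α < β
  · -- `α < θ < β`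
    have hpos : 0 < β - α := by linarith
    have hθβ : θ < β := by rw [hθ]; nlinarith
    have hθα : α < θ := by rw [hθ]; nlinarith
    -- `β > 0`, so `β > 1`
    have hβ0 : 0 < β := by linarith
    have hβ1 : 1 < β := by
      rcases lt_trichotomy β 1 with h | h | h
      · exact absurd ⟨hβ0, h⟩ hβn
      · exact absurd h hQ1
      · exact h
    apply hr1
    refine ⟨(1 - α) / (β - α), ?_, ?_, ?_⟩
    · apply div_pos (by linarith) hpos
    · rw [div_lt_one hpos]
      linarith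
    · rw [div_mul_cancel₀ _ hba]
      ring
  · have hlt' : β < α := lt_of_le_of_ne (not_lt.mp hlt) (Ne.symm hαβ)
    have hpos : 0 < α - β := by linarith
    have hθβ : β < θ := by rw [hθ]; nlinarith
    have hθα : θ < α := by rw [hθ]; nlinarith
    have hβ1 : β < 1 := by linarith
    have hβ0 : β < 0 := by
      rcases lt_trichotomy β 0 with h | h | h
      · exact h
      · exact absurd h hQ0
      · exact absurd ⟨h, hβ1⟩ hβn
    apply hp0
    refine ⟨α / (α - β), ?_, ?_, ?_⟩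
    · apply div_pos (by linarith) hpos
    · rw [div_lt_one hpos]
      linarith
    · have : β - α = -(α - β) := by ring
      rw [this, mul_neg, div_mul_cancel₀ _ (ne_of_gt hpos)]
      ring

end G10

open G10 in
/-- G10 -/
theorem g10 : TaskG10 := by
  classical
  intro S T hT q hq hex hqn
  obtain ⟨a₀, b₀, hab₀, hd₀⟩ := hex
  obtain ⟨z₀, hz₀, hzS⟩ := step1 S q hq a₀ b₀ hd₀
  have hz₀q : z₀ ≠ emb q := by
    intro h
    exact hqn a₀ b₀ hab₀ (h ▸ hz₀)
  -- the set of parameters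
  set M : Set ℝ := {s | 0 ≤ s ∧ s < 1 ∧ ∃ p r, s(p, r) ∈ T ∧ dt p r q ≠ 0 ∧
    pnt z₀ (emb q) s ∈ oseg p r} with hM
  have hMfin : M.Finite := by
    have hsub : M ⊆ ⋃ e ∈ (S ×ˢ S), {s : ℝ | dt e.1 e.2 q ≠ 0 ∧
        pnt z₀ (emb q) s ∈ oseg e.1 e.2} := by
      rintro s ⟨hs0, hs1, p, r, hpr, hd, hm⟩
      have hseg := hT.seg p r hpr
      simp only [Set.mem_iUnion]
      exact ⟨(p, r), Finset.mem_product.mpr ⟨hseg.1, hseg.2.1⟩, hd, hm⟩
    refine Set.Finite.subset ?_ hsub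
    refine Set.Finite.biUnion (S ×ˢ S).finite_toSet ?_
    rintro ⟨p, r⟩ -
    apply Set.Subsingleton.finite
    rintro s ⟨hd, hs⟩ s' ⟨-, hs'⟩
    simp only at hd hs hs'
    have hd' : cr (emb p) (emb r) (emb q) ≠ 0 := by
      rw [cr_emb]
      exact_mod_cast hd
    obtain ⟨θ, -, -, e1, e2⟩ := (mem_os _ _ _).mp hs
    obtain ⟨θ', -, -, e1', e2'⟩ := (mem_os _ _ _).mp hs'
    simp only [pnt] at e1 e2 e1' e2'
    by_contra hne
    have i1 : ((emb r).1 - (emb p).1) * ((z₀.2 + s * ((emb q).2 - z₀.2)) - (emb p).2) -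
      ((emb r).2 - (emb p).2) * ((z₀.1 + s * ((emb q).1 - z₀.1)) - (emb p).1) = 0 := by
      rw [e1, e2]
      ring
    have i2 : ((emb r).1 - (emb p).1) * ((z₀.2 + s' * ((emb q).2 - z₀.2)) - (emb p).2) -
      ((emb r).2 - (emb p).2) * ((z₀.1 + s' * ((emb q).1 - z₀.1)) - (emb p).1) = 0 := by
      rw [e1', e2']
      ring
    have i3 : (s - s') * cr (emb p) (emb r) (emb q) = 0 := by
      simp only [cr]
      linear_combination (1 - s') * i1 - (1 - s) * i2
    rcases mul_eq_zero.mp i3 with h | h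
    · exact hne (sub_eq_zero.mp h)
    · exact hd' h
  have hM0 : (0 : ℝ) ∈ M := by
    refine ⟨le_refl _, one_pos, a₀, b₀, hab₀, hd₀, ?_⟩
    have : pnt z₀ (emb q) 0 = z₀ := by simp [pnt]
    rw [this]
    exact hz₀
  obtain ⟨s₁, hs₁M, hs₁max⟩ := Set.exists_max_image M id hMfin ⟨0, hM0⟩
  simp only [id] at hs₁max
  obtain ⟨hs0, hs1, a, b, hab, hd, hm⟩ := hs₁M
  set z := pnt z₀ (emb q) s₁ with hz
  -- points of the new open segment
  have hin : ∀ w, w ∈ openSegment ℝ z (emb q) → ∃ s, s₁ < s ∧ s < 1 ∧ w = pnt z₀ (emb q) s := by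
    intro w hw
    obtain ⟨θ, h0, h1, hw'⟩ := (mem_os' _ _ _).mp hw
    refine ⟨s₁ + θ * (1 - s₁), ?_, ?_, ?_⟩
    · have : 0 < θ * (1 - s₁) := mul_pos h0 (by linarith)
      linarith
    · have : 0 < (1 - θ) * (1 - s₁) := mul_pos (by linarith) (by linarith)
      linarith
    · rw [hw', hz]
      simp only [pnt]
      refine Prod.ext ?_ ?_
      · simp only
        ring
      · simp only
        ring
  have hdisj : ∀ p r, s(p, r) ∈ T → Disjoint (openSegment ℝ z (emb q)) (oseg p r) := by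
    intro p r hpr
    rw [Set.disjoint_left]
    intro w hw hwo
    obtain ⟨s, hs, hs', rfl⟩ := hin w hw
    have hseg := hT.seg p r hpr
    by_cases hd' : dt p r q = 0
    · exact step2 S q hq z₀ hz₀q hzS p r hseg.1 hseg.2.1 hseg.2.2.1 hd' (hqn p r hpr) s
        (lt_of_le_of_lt hs0 hs) hs' hwo
    · have : s ∈ M := ⟨le_of_lt (lt_of_le_of_lt hs0 hs), hs', p, r, hpr, hd', hwo⟩
      exact absurd (hs₁max s this) (not_le.mpr hs)
  have hnoS : ∀ r ∈ S, emb r ∉ openSegment ℝ z (emb q) := by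
    intro r hr hmem
    obtain ⟨s, hs, hs', hrs⟩ := hin _ hmem
    exact hzS r hr ((mem_os' _ _ _).mpr ⟨s, lt_of_le_of_lt hs0 hs, hs', hrs⟩)
  rcases lt_or_gt_of_ne hd with h | h
  · refine ⟨b, a, ?_, ?_, z, ?_, hdisj, hnoS⟩
    · rw [Sym2.eq_swap]
      exact hab
    · have : dt b a q = - dt a b q := by
        simp only [dt]
        ring
      rw [this]
      linarith
    · unfold oseg
      rw [openSegment_symm]
      exact hm
  · exact ⟨a, b, hab, h, z, hm, hdisj, hnoS⟩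

end Pool.Agent.W982.TA
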